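import Pool.Agent.W619.Y.Stm8
import Pool.Agent.W619.X.KN

/-! Quotients of `Y × C 1 × ... × C n`, with boundary: a form on each of the curves. -/

set_option autoImplicit false
set_option linter.overlappingInstances false
set_option linter.unusedSectionVars false

universe u v

open Polynomial FF IntermediateField Pool.Agent.W619.PQ Pool.Agent.W619.PL Pool.Agent.W619.TW
  Pool.Agent.W619.X Pool.Agent.W619.Y

namespace Pool.Agent.W427.PG

open Pool.Agent.W603.LV

section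

variable {k : Type v} {L : Type u} [Field k] [CharZero k] [IsAlgClosed k] [Field L] [Algebra k L]

/-- The orders at one place. -/
theorem loc_core (F : IntermediateField k L) [hF : IsFF k F] (H : Subgroup (L ≃ₐ[k] L)) [Finite H]
    (hst : ∀ g ∈ H, ∀ z ∈ F, g z ∈ F) (m : ℕ)
    (D0 : Derivation k ↥(F ⊓ fixedField H)
      ↥(F ⊓ fixedField H)) (c x : ↥(F ⊓ fixedField H))
    (hD0 : D0 ≠ 0) (hc : c ≠ 0) (hx : Transcendental k x)
    (w : Place k L) (u : L) (hu : u ∈ F ⊓ fixedField H) (hu0 : 0 < w.ord u)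
    (hdvd : ∀ z ∈ F ⊓ fixedField H, z ≠ 0 → w.ord u ∣ w.ord z)
    (ρ : L) (hρ : ∀ D : Derivation k L L, D (x : L) = ρ * D u) :
    ∃ (p : Place k ↥(F ⊓ fixedField H)) (q : Place k F) (α f e : ℕ), Over w p α ∧ Over w q f ∧
      LiesOver (inf_le_left : F ⊓ fixedField H ≤ F) q p e ∧ α = f * e ∧ w.ord u = α ∧
      w.ord (((c / (D0 x) ^ m : ↥(F ⊓ fixedField H)) : L) * (ρ * u) ^ m) =
        α * (p.ord c + m * (1 - vo p D0)) := by
  classical
  let _ : Algebra ↥(F ⊓ fixedField H) F :=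
    (inclusion (inf_le_left : F ⊓ fixedField H ≤ F)).toRingHom.toAlgebra
  have t1 : IsScalarTower k ↥(F ⊓ fixedField H) F := IsScalarTower.of_algebraMap_eq fun c => rfl
  have t2 : IsScalarTower ↥(F ⊓ fixedField H) F L := IsScalarTower.of_algebraMap_eq fun c => rfl
  have f1 : FiniteDimensional ↥(F ⊓ fixedField H) F := inf_finite H F hst fun z => rfl
  have f2 : IsFF k ↥(F ⊓ fixedField H) := isFF_down (E := F)
  have hov : ∀ (w : Place k F) (q : Place k ↥(F ⊓ fixedField H)) (e : ℕ),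
      LiesOver inf_le_left w q e ↔ Over w q e := fun w q e => Iff.rfl
  -- the place of `Q` below `w`
  set uQ : ↥(F ⊓ fixedField H) := ⟨u, hu⟩ with huQ
  have huw : w.ord (algebraMap ↥(F ⊓ fixedField H) L uQ) = w.ord u := rfl
  obtain ⟨α, p, hp⟩ := exists_over (K := ↥(F ⊓ fixedField H)) w ⟨uQ, by rw [huw]; omega⟩
  obtain ⟨t, ht0, ht⟩ := p.surj
  have hαpos : (0 : ℤ) < α := by exact_mod_cast hp.1
  have h1 : w.ord u = α * p.ord uQ := by rw [← huw]; exact hp.2 uQ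
  have h2 : w.ord u ∣ α := by
    have := hdvd (t : L) t.2 (fun h => ht0 (Subtype.ext h))
    have h3 : w.ord (t : L) = α * p.ord t := hp.2 t
    rwa [h3, ht, mul_one] at this
  have hpu : p.ord uQ = 1 := by
    have hpos : 0 < p.ord uQ := by
      by_contra hcon
      push Not at hcon
      have := mul_nonpos_of_nonneg_of_nonpos hαpos.le hcon
      omega
    obtain ⟨r, hr⟩ := h2
    rw [h1] at hr
    have h4 : (α : ℤ) * 1 = α * (p.ord uQ * r) := by rw [mul_one]; linarith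
    have h5 := mul_left_cancel₀ hαpos.ne' h4
    have h6 : 0 < r := by
      by_contra hcon
      push Not at hcon
      have := mul_nonpos_of_nonneg_of_nonpos hpos.le hcon
      omega
    nlinarith
  have hα : w.ord u = α := by rw [h1, hpu, mul_one]
  -- the place of `F`
  obtain ⟨f, q, hq⟩ := exists_over (K := F) w
    ⟨algebraMap ↥(F ⊓ fixedField H) F uQ, by
      rw [← IsScalarTower.algebraMap_apply, huw]; omega⟩
  have hqu : q.ord (algebraMap ↥(F ⊓ fixedField H) F uQ) ≠ 0 := by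
    intro h
    have h3 := hq.2 (algebraMap ↥(F ⊓ fixedField H) F uQ)
    rw [h, mul_zero, ← IsScalarTower.algebraMap_apply, huw] at h3
    omega
  obtain ⟨e, p', hp'⟩ := exists_over (K := ↥(F ⊓ fixedField H)) q ⟨_, hqu⟩
  obtain ⟨rfl, hαe⟩ := over_unique' hp (over_trans hq hp')
  -- the ratio
  have hut : Transcendental k uQ := trans_of_ord p (by omega)
  obtain ⟨r, hr1, hr2⟩ := ratio' (K := L) hut x
  obtain ⟨D, hD⟩ := exists_der (L := L) (u := algebraMap ↥(F ⊓ fixedField H) L uQ)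
    (trans_of_ord w (by rw [huw]; omega))
  have hρr : ρ = (r : L) := by
    have h3 := hr2 D
    have h4 := hρ D
    rw [hD, mul_one] at h3
    change D (x : L) = (r : L) at h3
    change D u = 1 at hD
    rw [hD, mul_one] at h4
    rw [← h4, h3]
  have hDu : D0 uQ ≠ 0 := der_ne_zero hD0 hut
  have hDx : D0 x ≠ 0 := der_ne_zero hD0 hx
  have hxr : D0 x = r * D0 uQ := hr1 D0
  have hr0 : r ≠ 0 := by
    intro h
    rw [h, zero_mul] at hxr
    exact hDx hxr
  have hu0' : uQ ≠ 0 := by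
    intro h
    rw [h, p.ord_zero] at hpu
    omega
  have hval : ((c / (D0 x) ^ m : ↥(F ⊓ fixedField H)) : L) * (ρ * u) ^ m =
      algebraMap ↥(F ⊓ fixedField H) L (c * (uQ / D0 uQ) ^ m) := by
    rw [hρr]
    change ((c / (D0 x) ^ m : ↥(F ⊓ fixedField H)) : L) * ((r : L) * (uQ : L)) ^ m =
      ((c * (uQ / D0 uQ) ^ m : ↥(F ⊓ fixedField H)) : L)
    have h3 : c / (D0 x) ^ m * (r * uQ) ^ m = c * (uQ / D0 uQ) ^ m := by
      rw [hxr, div_mul_eq_mul_div, mul_div_assoc, ← div_pow]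
      congr 2
      field_simp
    rw [← h3]
    push_cast
    rfl
  have hord : p.ord (c * (uQ / D0 uQ) ^ m) = p.ord c + m * (1 - vo p D0) := by
    rw [p.ord_mul hc (pow_ne_zero _ (div_ne_zero hu0' hDu)), p.ord_pow, p.ord_div hu0' hDu, hpu,
      vo_eq p hpu hD0]
  have hw : w.ord (((c / (D0 x) ^ m : ↥(F ⊓ fixedField H)) : L) * (ρ * u) ^ m) =
      α * (p.ord c + m * (1 - vo p D0)) := by
    rw [hval, hp.2, hord]
  exact ⟨p, q, α, f, e, hp, hq, (hov q p e).2 hp', hαe, hα, hw⟩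

theorem locB (F : IntermediateField k L) [hF : IsFF k F] (H : Subgroup (L ≃ₐ[k] L)) [Finite H]
    (hst : ∀ g ∈ H, ∀ z ∈ F, g z ∈ F) (N m : ℕ) (hN : 1 ≤ N)
    (B : Set (Place k ↥(F ⊓ fixedField H)))
    (X : Place k ↥(F ⊓ fixedField H) → ℚ) (D0 : Derivation k ↥(F ⊓ fixedField H)
      ↥(F ⊓ fixedField H)) (c x : ↥(F ⊓ fixedField H))
    (hXN : ∀ p ∉ B, 1 / (N : ℚ) ≤ X p)
    (hXe : ∀ p ∉ B, ∀ (q : Place k F) e, LiesOver (inf_le_left : F ⊓ fixedField H ≤ F) q p e →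
        1 ≤ e * X p) (hD0 : D0 ≠ 0) (hc : c ≠ 0) (hx : Transcendental k x)
    (hg : GoodX (fun q => q ∈ B) X m D0 c) (w : Place k L) :
    ((∀ p ∈ B, ∀ a, ¬ Over w p a) → GoodPl (F ⊓ fixedField H) N m (x : L)
      ((c / (D0 x) ^ m : ↥(F ⊓ fixedField H)) : L) w) ∧
    LogPl (F ⊓ fixedField H) m (x : L) ((c / (D0 x) ^ m : ↥(F ⊓ fixedField H)) : L) w := by
  constructor
  · intro hB u hu hu0 hdvd ρ hρ
    obtain ⟨p, q, α, f, e, hp, hq, hp', hαe, hα, hw⟩ :=
      loc_core F H hst m D0 c x hD0 hc hx w u hu hu0 hdvd ρ hρ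
    have hpB : p ∉ B := fun h => hB p h α hp
    obtain ⟨h5, h6⟩ := hg p
    have h7 := h6 hpB
    rw [hw, hα]
    set o : ℤ := p.ord c + m * (1 - vo p D0) with ho
    have hm0 : (0 : ℚ) ≤ m := Nat.cast_nonneg m
    have hNpos : (0 : ℚ) < N := by exact_mod_cast hN
    have hαq : (0 : ℚ) < α := by exact_mod_cast hp.1
    have hαpos : (0 : ℤ) < α := by exact_mod_cast hp.1
    constructor
    · have h8 : (m : ℚ) ≤ N * o := by
        have h9 := mul_le_mul_of_nonneg_left (hXN p hpB) hm0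
        have h10 : (m : ℚ) * (1 / N) ≤ o := h9.trans h7
        rw [mul_one_div, div_le_iff₀ hNpos] at h10
        linarith
      have h9 : (m : ℤ) ≤ N * o := by exact_mod_cast h8
      nlinarith
    · have h8 := hXe p hpB q e hp'
      have h9 : (m : ℚ) * 1 ≤ m * (e * X p) := mul_le_mul_of_nonneg_left h8 hm0
      have h10 : (m : ℚ) ≤ e * o := by
        have h11 : (e : ℚ) * (m * X p) ≤ e * o := mul_le_mul_of_nonneg_left h7 (Nat.cast_nonneg e)
        nlinarith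
      have h11 : (m : ℤ) ≤ e * o := by exact_mod_cast h10
      have h12 : (α : ℤ) = f * e := by exact_mod_cast hαe
      rw [h12]
      have h13 : (1 : ℤ) ≤ f := by exact_mod_cast hq.1
      have h14 : (0 : ℤ) ≤ e * o := by
        have h15 : (0 : ℤ) ≤ m := by positivity
        linarith
      nlinarith
  · intro u hu hu0 hdvd ρ hρ
    obtain ⟨p, q, α, f, e, hp, hq, hp', hαe, hα, hw⟩ :=
      loc_core F H hst m D0 c x hD0 hc hx w u hu hu0 hdvd ρ hρ
    rw [hw]
    exact mul_nonneg (by positivity) (hg p).1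

theorem data_nonnegB (F : IntermediateField k L) [hF : IsFF k F]
    (H : Subgroup (L ≃ₐ[k] L)) [Finite H] (hst : ∀ g ∈ H, ∀ z ∈ F, g z ∈ F) (N : ℕ) (hN : 1 ≤ N)
    (B : Set (Place k ↥(F ⊓ fixedField H))) (hB : B.Finite)
    (hneg : ¬ IsNegative (inf_le_left : F ⊓ fixedField H ≤ F) B)
    (δ : Place k ↥(F ⊓ fixedField H) → ℚ) (hδN : ∀ p ∉ B, 1 / (N : ℚ) ≤ 1 - δ p)
    (hδ : OrbNonneg (inf_le_left : F ⊓ fixedField H ≤ F) B δ) :
    ∃ (m : ℕ) (x b : L), 1 ≤ m ∧ x ∈ F ⊓ fixedField H ∧ Transcendental k x ∧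
      b ∈ F ⊓ fixedField H ∧ b ≠ 0 ∧ ∀ w : Place k L,
        ((∀ p ∈ B, ∀ a, ¬ Over w p a) → GoodPl (F ⊓ fixedField H) N m x b w) ∧
        LogPl (F ⊓ fixedField H) m x b w := by
  classical
  let _ : Algebra ↥(F ⊓ fixedField H) F :=
    (inclusion (inf_le_left : F ⊓ fixedField H ≤ F)).toRingHom.toAlgebra
  have t1 : IsScalarTower k ↥(F ⊓ fixedField H) F := IsScalarTower.of_algebraMap_eq fun c => rfl
  have f1 : FiniteDimensional ↥(F ⊓ fixedField H) F := inf_finite H F hst fun z => rfl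
  have f2 : IsFF k ↥(F ⊓ fixedField H) := isFF_down (E := F)
  have hfix : ∀ (g : H) (z : ↥(F ⊓ fixedField H)),
      rho H F hst g (algebraMap ↥(F ⊓ fixedField H) F z) = algebraMap ↥(F ⊓ fixedField H) F z := by
    intro g z
    apply Subtype.ext
    exact z.2.2 g
  have hinv : ∀ z : F, (∀ g, rho H F hst g z = z) →
      ∃ z0, algebraMap ↥(F ⊓ fixedField H) F z0 = z := by
    intro z hz
    refine ⟨⟨(z : L), z.2, fun g => ?_⟩, rfl⟩
    exact congrArg (Subtype.val : F → L) (hz g)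
  have hUB : (UB1 F fun q : Place k ↥(F ⊓ fixedField H) => q ∈ B).Finite := UB1_finite hB
  have hld : 0 ≤ canDeg k F + (UB1 F fun q : Place k ↥(F ⊓ fixedField H) => q ∈ B).ncard := by
    by_contra hcon
    push Not at hcon
    rw [neg_iff hUB] at hcon
    obtain ⟨hr', hss⟩ := hcon
    refine hneg ⟨hr', fun w w' hw hw' => ?_⟩
    obtain ⟨p, hp, e, hpe⟩ := hw
    obtain ⟨p', hp', e', hpe'⟩ := hw'
    exact hss w ⟨p, e, hpe, hp⟩ w' ⟨p', e', hpe', hp'⟩
  have hlog : HasLog F (fun q : Place k ↥(F ⊓ fixedField H) => q ∈ B) :=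
    hasLog_of_nonneg (E := F) hUB hld
  have hadm := adm_of_nonneg (inf_le_left : F ⊓ fixedField H ≤ F) rfl hδ
  obtain ⟨⟨hfin, h01⟩, -⟩ := hδ
  obtain ⟨m, D0, c, hm, hD0, hc, hg⟩ := exists_goodX (E := F) (rho H F hst) hfix hinv
    (fun q => q ∈ B) hlog δ hfin
    (fun q => ⟨(h01 q).1, (h01 q).2.1⟩) (by
      rcases hadm with ⟨D, o, h1, h2, h3, -⟩ | h
      · exact Or.inl ⟨D, o, h1, h2, h3⟩
      · exact Or.inr h)
  obtain ⟨x, hx⟩ := IsFF.exists_transcendental (k := k) (K := ↥(F ⊓ fixedField H))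
  refine ⟨m, x, _, hm, x.2, transcendental_map' hx, (c / (D0 x) ^ m).2, ?_,
    locB F H hst N m hN B (fun q => 1 - δ q) D0 c x hδN ?_ hD0 hc hx hg⟩
  · intro h
    have h1 : c / (D0 x) ^ m = 0 := Subtype.ext h
    exact div_ne_zero hc (pow_ne_zero _ (der_ne_zero hD0 hx)) h1
  · intro p hp q e he
    have h1 := (h01 p).2.2 hp q e he
    have h2 : (0 : ℚ) < e := by exact_mod_cast he.1
    have h3 : (e : ℚ) * (1 / e) ≤ e * (1 - δ p) := mul_le_mul_of_nonneg_left (by linarith) h2.le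
    rw [mul_one_div_cancel h2.ne'] at h3
    exact h3

end

theorem main : S_DATAN.{u, v} := by
  intro k L _ _ _ _ _ n F hF G _ σ hσ N hN i B hB hneg h
  have hst := stb_stable (G := G) (σ := σ) hσ i
  have hδ : ∃ δ : Place k ↥(F i ⊓ fixedField (stb G σ i)) → ℚ,
      (∀ p ∉ B, 1 / (N : ℚ) ≤ 1 - δ p) ∧
      OrbNonneg (inf_le_left : F i ⊓ fixedField (stb G σ i) ≤ F i) B δ := by
    have hidx : ∀ {r : ℕ}, ¬ r ∣ Nat.card G → ∀ (w : Place k (F i))
        (q : Place k ↥(F i ⊓ fixedField (stb G σ i))), ¬ LiesOver inf_le_left w q r :=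
      fun hr w q => index_stb (F i) G (stb G σ i) (stb_le G σ i) hst hr w q
    rcases h with h | h | h
    · obtain ⟨⟨δ, h1, h2, h3⟩, -⟩ := delta_exists (F i) (hF := hF i) (stb G σ i) hst B
        hB N (by omega)
      refine ⟨δ, h3, h1, Or.inr ⟨N, h2, ?_⟩⟩
      rcases h with h | ⟨h, h'⟩ | ⟨h, h'⟩ | h
      · exact Or.inl h
      · exact Or.inr (Or.inl ⟨h, fun w q => hidx h' w q⟩)
      · exact Or.inr (Or.inr (Or.inl ⟨h, fun w q => hidx h' w q⟩))
      · exact Or.inr (Or.inr (Or.inr ⟨hN, h⟩))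
    · obtain ⟨δ, h1, h2, h3, -⟩ := half_factor (F i) (hF := hF i) (stb G σ i) hst B hB
      refine ⟨δ, fun p hp => ?_, h3 h⟩
      have h4 := h2 p hp
      have h5 : 1 / (N : ℚ) ≤ 1 / 2 :=
        one_div_le_one_div_of_le (by norm_num) (by exact_mod_cast hN)
      linarith
    · obtain ⟨δ, h1, h2⟩ := h
      exact ⟨δ, fun p hp => by linarith [h2 p hp], h1.nonneg⟩
  obtain ⟨δ, h1, h2⟩ := hδ
  exact data_nonnegB (F i) (hF := hF i) (stb G σ i) hst N (by omega) B hB hneg δ h1 h2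

end Pool.Agent.W427.PG
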